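import Mathlib

/-!
# The Stern polynomials `B_p`, `p` prime, are irreducible

If `α` is a complex number with `|α - 2|² ≤ |α - 1|`, then no Stern polynomial `B_n`, `n ≥ 1`,
vanishes at `α`. The quotients `B_{n+1}(α) / B_n(α)` (or their inverses) stay in an explicit
closed disc which avoids `0` and `-1`. Hence every root `α` of `B_n` satisfies
`|α - 2|² > |α - 1|`, and every non-constant integer factor `f` of `B_n` satisfies
`f(2)² > |f(1)| ≥ 1`. As `B_n(2) = n`, the polynomial `B_p` is irreducible when `p` is prime.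
-/

set_option autoImplicit false

open Polynomial

namespace Pool.Agent.Results.MP_201fbb_nt.SternIrreducible

/-- The Stern polynomials: `B_0 = 0`, `B_1 = 1`, `B_{2n} = t B_n` and
`B_{2n+1} = B_n + B_{n+1}` for `n ≥ 1`. -/
noncomputable def stern : ℕ → ℤ[X]
  | 0 => 0
  | 1 => 1
  | (n + 2) =>
    if n % 2 = 0 then X * stern (n / 2 + 1)
    else stern ((n + 1) / 2) + stern ((n + 1) / 2 + 1)
termination_by n => n
decreasing_by all_goals omega

theorem stern_zero : stern 0 = 0 := by rw [stern]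

theorem stern_one : stern 1 = 1 := by rw [stern]

theorem stern_even (n : ℕ) : stern (2 * n) = X * stern n := by
  rcases n with _ | n
  · simp [stern_zero]
  · have h : 2 * (n + 1) = 2 * n + 2 := by ring
    rw [h, stern, if_pos (by omega)]
    congr 2
    omega

theorem stern_odd (n : ℕ) : stern (2 * n + 1) = stern n + stern (n + 1) := by
  rcases n with _ | n
  · simp [stern_zero, stern_one]
  · have h : 2 * (n + 1) + 1 = (2 * n + 1) + 2 := by ring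
    rw [h, stern, if_neg (by omega)]
    have e : (2 * n + 1 + 1) / 2 = n + 1 := by omega
    rw [e]

/-! ### Real inequalities -/

theorem real_one {m v T R : ℝ} (hm : 0 < m) (hv : m ^ 2 - m + 1 ≤ v) (hT : T ^ 2 = 1 + v + m ^ 2)
    (hT0 : 0 ≤ T) (hR0 : 0 ≤ R) (hR : R ^ 2 = m * (2 * m + v - m ^ 2)) :
    m ^ 2 ≤ R * (T - 1) := by
  obtain ⟨d, hd, rfl⟩ : ∃ d, 0 ≤ d ∧ v = (m ^ 2 - m + 1) + d := ⟨v - (m ^ 2 - m + 1), by linarith, by ring⟩
  have hT1 : 1 ≤ T := by nlinarith [sq_nonneg (m - 1)]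
  have hA : 0 ≤ (T ^ 2 + 1) * (1 + m) - m ^ 3 := by
    rw [hT]
    nlinarith [pow_pos hm 2, pow_pos hm 3, mul_nonneg hd hm.le]
  have key : 2 * T * (1 + m) ≤ (T ^ 2 + 1) * (1 + m) - m ^ 3 := by
    refine le_of_sq_le_sq ?_ hA
    have e : ((T ^ 2 + 1) * (1 + m) - m ^ 3) ^ 2 - (2 * T * (1 + m)) ^ 2
        = (m ^ 3 + m ^ 2 - 2 * m) ^ 2 + 2 * m * (m - 1) ^ 2 + m ^ 2 + (m - 1) ^ 2
          + 2 * (1 + m) * d * (m ^ 3 + m ^ 2 + 1) + (1 + m) ^ 2 * d ^ 2 := by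
      have e2 : (2 * T * (1 + m)) ^ 2 = 4 * T ^ 2 * (1 + m) ^ 2 := by ring
      rw [e2, hT]
      ring
    have : 0 ≤ (m ^ 3 + m ^ 2 - 2 * m) ^ 2 + 2 * m * (m - 1) ^ 2 + m ^ 2 + (m - 1) ^ 2
          + 2 * (1 + m) * d * (m ^ 3 + m ^ 2 + 1) + (1 + m) ^ 2 * d ^ 2 := by positivity
    linarith
  have key2 : m ^ 3 ≤ (1 + m) * (T - 1) ^ 2 := by nlinarith
  refine le_of_sq_le_sq ?_ (mul_nonneg hR0 (by linarith))
  have : (R * (T - 1)) ^ 2 = m * (1 + m + d) * (T - 1) ^ 2 := by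
    rw [mul_pow, hR]; ring
  rw [this]
  have h1 : 0 ≤ m * d * (T - 1) ^ 2 := by positivity
  nlinarith [mul_le_mul_of_nonneg_left key2 hm.le]

theorem poly_two {m : ℝ} (hm : 0 < m) :
    0 ≤ m ^ 6 + 2 * m ^ 4 - 2 * m ^ 3 - 3 * m ^ 2 + 2 * m + 1 := by
  rcases le_total 1 m with h | h
  · obtain ⟨k, hk, rfl⟩ : ∃ k, 0 ≤ k ∧ m = 1 + k := ⟨m - 1, by linarith, by ring⟩
    ring_nf
    positivity
  · obtain ⟨k, hk, hk1, rfl⟩ : ∃ k, 0 ≤ k ∧ k ≤ 1 ∧ m = 1 - k :=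
      ⟨1 - m, by linarith, by linarith, by ring⟩
    have e : (1 - k) ^ 6 + 2 * (1 - k) ^ 4 - 2 * (1 - k) ^ 3 - 3 * (1 - k) ^ 2 + 2 * (1 - k) + 1
        = (1 - 2 * k) ^ 2 + k ^ 2 * ((1 - k) * (5 * (1 - k) ^ 2 + k ^ 2 * (1 - k) + 9 - 2 * k - k ^ 2)) := by
      ring
    rw [e]
    have h1 : 0 ≤ 1 - k := by linarith
    have h2 : 0 ≤ 9 - 2 * k - k ^ 2 := by nlinarith
    have h3 : 0 ≤ 5 * (1 - k) ^ 2 + k ^ 2 * (1 - k) := by positivity
    have h4 : 0 ≤ 5 * (1 - k) ^ 2 + k ^ 2 * (1 - k) + 9 - 2 * k - k ^ 2 := by linarith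
    positivity

theorem real_two {m v T R N : ℝ} (hm : 0 < m) (hv : m ^ 2 - m + 1 ≤ v)
    (hT : T ^ 2 = 1 + v + m ^ 2) (hT0 : 0 ≤ T) (hR0 : 0 ≤ R)
    (hR : R ^ 2 = m * (2 * m + v - m ^ 2))
    (hN : N ^ 2 = m ^ 2 - v * (m ^ 2 - m) + (m ^ 2 - m) ^ 2) :
    N ≤ R * (T - m) := by
  obtain ⟨d, hd, rfl⟩ : ∃ d, 0 ≤ d ∧ v = (m ^ 2 - m + 1) + d := ⟨v - (m ^ 2 - m + 1), by linarith, by ring⟩
  have hTm : m ≤ T := by
    refine le_of_sq_le_sq ?_ hT0
    nlinarith [sq_nonneg (m - 1)]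
  have hA : 0 ≤ (1 + m) * (T ^ 2 + m ^ 2) - 1 := by
    rw [hT]
    nlinarith [pow_pos hm 2, pow_pos hm 3, mul_nonneg hd hm.le]
  have key : 2 * m * T * (1 + m) ≤ (1 + m) * (T ^ 2 + m ^ 2) - 1 := by
    refine le_of_sq_le_sq ?_ hA
    have e : ((1 + m) * (T ^ 2 + m ^ 2) - 1) ^ 2 - (2 * m * T * (1 + m)) ^ 2
        = (m ^ 6 + 2 * m ^ 4 - 2 * m ^ 3 - 3 * m ^ 2 + 2 * m + 1)
          + 2 * (1 + m) * d * (m ^ 3 + m + 1) + (1 + m) ^ 2 * d ^ 2 := by
      have e2 : (2 * m * T * (1 + m)) ^ 2 = 4 * m ^ 2 * T ^ 2 * (1 + m) ^ 2 := by ring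
      rw [e2, hT]
      ring
    have h1 : 0 ≤ 2 * (1 + m) * d * (m ^ 3 + m + 1) + (1 + m) ^ 2 * d ^ 2 := by positivity
    have := poly_two hm
    linarith
  have key2 : 1 ≤ (1 + m) * (T - m) ^ 2 := by nlinarith
  have key3 : 1 - m ≤ (T - m) ^ 2 := by
    have : 0 ≤ (1 + m) * ((T - m) ^ 2 - (1 - m)) := by nlinarith [sq_nonneg m]
    have := nonneg_of_mul_nonneg_right this (by linarith)
    linarith
  refine le_of_sq_le_sq ?_ (mul_nonneg hR0 (by linarith))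
  have e : (R * (T - m)) ^ 2 = m * (1 + m + d) * (T - m) ^ 2 := by
    rw [mul_pow, hR]; ring
  have e2 : N ^ 2 = m * (1 - (m - 1) * d) := by rw [hN]; ring
  rw [e, e2]
  have h3 : 1 - (m - 1) * d ≤ (1 + m + d) * (T - m) ^ 2 := by
    nlinarith [mul_le_mul_of_nonneg_left key3 hd]
  nlinarith [mul_le_mul_of_nonneg_left h3 hm.le]

theorem real_start_one {m v : ℝ} (hm : 0 < m) (hv : m ^ 2 - m + 1 ≤ v) :
    m ^ 4 - m ^ 3 + 3 * m ^ 2 - (2 + m) * v - 2 * v ^ 2 ≤ 0 := by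
  have hy : 0 < m ^ 2 - m + 1 := by nlinarith [sq_nonneg (m - 1)]
  have h1 : (m ^ 2 - m + 1) ^ 2 ≤ v ^ 2 := by
    exact pow_le_pow_left₀ hy.le hv 2
  have h2 : (2 + m) * (m ^ 2 - m + 1) ≤ (2 + m) * v := mul_le_mul_of_nonneg_left hv (by linarith)
  nlinarith [sq_nonneg (m ^ 2 - m + 1), sq_nonneg (2 * m - 3)]

theorem real_start_two {m v : ℝ} (hm : 0 < m) (hv : m ^ 2 - m + 1 ≤ v) (hv2 : v ≤ 2 * m) :
    m ^ 5 - m ^ 4 + 2 * m ^ 3 - 2 * m ^ 2 - 3 * m + v * (m ^ 3 - 2 * m ^ 2 - 3 * m - 2)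
      - (1 + m) * v ^ 2 ≤ 0 := by
  obtain ⟨d, hd, rfl⟩ : ∃ d, 0 ≤ d ∧ v = (m ^ 2 - m + 1) + d := ⟨v - (m ^ 2 - m + 1), by linarith, by ring⟩
  have hy : 3 / 4 ≤ m ^ 2 - m + 1 := by nlinarith [sq_nonneg (2 * m - 1)]
  have hq : m ^ 2 ≤ 3 * m - 1 := by linarith
  have h5 : m ^ 3 - 2 * m ^ 2 - 2 * m - 4 ≤ -5 := by nlinarith
  have e : m ^ 5 - m ^ 4 + 2 * m ^ 3 - 2 * m ^ 2 - 3 * m
      + ((m ^ 2 - m + 1) + d) * (m ^ 3 - 2 * m ^ 2 - 3 * m - 2)
      - (1 + m) * ((m ^ 2 - m + 1) + d) ^ 2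
      = (m ^ 2 - m + 1) * (m ^ 3 - 2 * m ^ 2 - 2 * m - 4) - 5 * m + 1
        - d * (m ^ 3 + 2 * m ^ 2 + 3 * m + 4) - (1 + m) * d ^ 2 := by ring
  rw [e]
  have h6 : (m ^ 2 - m + 1) * (m ^ 3 - 2 * m ^ 2 - 2 * m - 4) ≤ (m ^ 2 - m + 1) * (-5) :=
    mul_le_mul_of_nonneg_left h5 (by linarith)
  have h7 : 0 ≤ d * (m ^ 3 + 2 * m ^ 2 + 3 * m + 4) := by positivity
  have h8 : 0 ≤ (1 + m) * d ^ 2 := by positivity
  linarith

/-! ### The invariant disc -/

section Disc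

open ComplexConjugate

/-- For `x ≠ 0` this says that `y / x` lies in a closed disc with centre
`(|s| + conj s) / |s|²` and radius `R / |s|²`. -/
def InD (s : ℂ) (R : ℝ) (x y : ℂ) : Prop :=
  ‖((‖s‖ : ℝ) : ℂ) ^ 2 * y - (((‖s‖ : ℝ) : ℂ) + conj s) * x‖ ≤ R * ‖x‖

variable {s : ℂ} {R : ℝ}

theorem conj_mul_self' (s : ℂ) : conj s * s = ((‖s‖ : ℝ) : ℂ) ^ 2 := by
  rw [mul_comm, Complex.mul_conj, Complex.normSq_eq_norm_sq]
  push_cast
  ring

theorem normSq_kappa (s : ℂ) :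
    Complex.normSq (((‖s‖ : ℝ) : ℂ) + conj s) = 2 * ‖s‖ ^ 2 + 2 * ‖s‖ * s.re := by
  rw [Complex.normSq_add, Complex.normSq_ofReal, Complex.normSq_conj, Complex.normSq_eq_norm_sq]
  simp
  ring

theorem step_one (h1 : ‖s‖ ^ 2 ≤ R * (‖1 + s‖ - 1)) {x y : ℂ} (h : InD s R x y) :
    InD s R ((1 + s) * x) (x + y) := by
  unfold InD at *
  set m : ℝ := ‖s‖ with hm
  have e : ((m : ℝ) : ℂ) ^ 2 * (x + y) - ((m : ℂ) + conj s) * ((1 + s) * x)
      = ((m : ℂ) ^ 2 * y - ((m : ℂ) + conj s) * x) + (-(m : ℂ) * s) * x := by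
    have := conj_mul_self' s
    rw [← hm] at this
    linear_combination (-x) * this
  rw [e]
  refine (norm_add_le _ _).trans ?_
  have e2 : ‖(-(m : ℂ) * s) * x‖ = m ^ 2 * ‖x‖ := by
    rw [norm_mul, norm_mul, norm_neg, Complex.norm_real, Real.norm_eq_abs,
      abs_of_nonneg (norm_nonneg s), ← hm]
    ring
  rw [e2, norm_mul]
  have := mul_le_mul_of_nonneg_right h1 (norm_nonneg x)
  nlinarith

theorem flip (hs : 0 < ‖s‖) (hR0 : 0 ≤ R) (hR : R ^ 2 = ‖s‖ * (2 * ‖s‖ + 2 * s.re - ‖s‖ ^ 2))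
    {x y : ℂ} (h : InD s R x y) :
    ‖((‖s‖ : ℝ) : ℂ) * x - conj (((‖s‖ : ℝ) : ℂ) + conj s) * y‖ ≤ R * ‖y‖ := by
  unfold InD at h
  have hK := normSq_kappa s
  set m : ℝ := ‖s‖ with hm
  set κ : ℂ := (m : ℂ) + conj s with hκ
  have h2 : Complex.normSq ((m : ℂ) ^ 2 * y - κ * x) ≤ R ^ 2 * Complex.normSq x := by
    rw [Complex.normSq_eq_norm_sq, Complex.normSq_eq_norm_sq, ← mul_pow]
    exact pow_le_pow_left₀ (norm_nonneg _) h 2
  refine le_of_sq_le_sq ?_ (mul_nonneg hR0 (norm_nonneg _))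
  rw [mul_pow, ← Complex.normSq_eq_norm_sq, ← Complex.normSq_eq_norm_sq]
  rw [Complex.normSq_sub] at h2 ⊢
  simp only [map_mul, map_pow, Complex.normSq_ofReal, Complex.normSq_conj, Complex.conj_conj] at h2 ⊢
  have e1 : ((m : ℂ) ^ 2 * y * (conj κ * conj x)).re = m ^ 2 * (y * conj κ * conj x).re := by
    have : (m : ℂ) ^ 2 * y * (conj κ * conj x) = ((m ^ 2 : ℝ) : ℂ) * (y * conj κ * conj x) := by
      push_cast; ring
    rw [this, Complex.re_ofReal_mul]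
  have e2 : ((m : ℂ) * x * (κ * conj y)).re = m * (y * conj κ * conj x).re := by
    have h3 : (m : ℂ) * x * (κ * conj y) = (m : ℂ) * conj (y * conj κ * conj x) := by
      simp only [map_mul, Complex.conj_conj]; ring
    rw [h3, Complex.re_ofReal_mul, Complex.conj_re]
  rw [e1] at h2
  rw [e2]
  set r := (y * conj κ * conj x).re
  set X := Complex.normSq x
  set Y := Complex.normSq y
  rw [hK] at h2 ⊢
  rw [hR] at h2 ⊢
  have h4 : m ^ 2 * (m ^ 2 * Y + m * X - 2 * r) ≤ 0 := by nlinarith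
  have h5 : m ^ 2 * Y + m * X - 2 * r ≤ 0 := by
    by_contra hcon
    rw [not_le] at hcon
    have := mul_pos (pow_pos hs 2) hcon
    linarith
  nlinarith [mul_nonneg hs.le (sub_nonneg.mpr h5)]

theorem step_two (hs : 0 < ‖s‖) (hR0 : 0 ≤ R)
    (hR : R ^ 2 = ‖s‖ * (2 * ‖s‖ + 2 * s.re - ‖s‖ ^ 2))
    (h2 : ‖s - (((‖s‖ ^ 2 - ‖s‖ : ℝ)) : ℂ)‖ ≤ R * (‖1 + s‖ - ‖s‖)) {x y : ℂ} (h : InD s R y x) :
    InD s R ((1 + s) * x) (x + y) := by
  have h' := flip hs hR0 hR h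
  unfold InD at *
  set m : ℝ := ‖s‖ with hm
  have e : ((m : ℝ) : ℂ) ^ 2 * (x + y) - ((m : ℂ) + conj s) * ((1 + s) * x)
      = (m : ℂ) * ((m : ℂ) * y - conj ((m : ℂ) + conj s) * x)
        + conj (((m ^ 2 - m : ℝ) : ℂ) - s) * x := by
    have := conj_mul_self' s
    rw [← hm] at this
    simp only [map_add, map_sub, Complex.conj_ofReal, Complex.conj_conj]
    push_cast
    linear_combination (-x) * this
  rw [e]
  refine (norm_add_le _ _).trans ?_
  rw [norm_mul, norm_mul, Complex.norm_real, Real.norm_eq_abs, abs_of_nonneg (norm_nonneg s),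
    ← hm, Complex.norm_conj, norm_sub_rev (((m ^ 2 - m : ℝ) : ℂ)) s, norm_mul]
  have k1 := mul_le_mul_of_nonneg_left h' hs.le
  have k2 := mul_le_mul_of_nonneg_right h2 (norm_nonneg x)
  nlinarith

theorem sum_ne_zero (hs : 0 < ‖s‖) (hre : 0 ≤ s.re)
    (hR : R ^ 2 = ‖s‖ * (2 * ‖s‖ + 2 * s.re - ‖s‖ ^ 2)) {x y : ℂ} (hx : x ≠ 0)
    (h : InD s R x y) : x + y ≠ 0 := by
  intro h0
  have hy : y = -x := by linear_combination h0
  unfold InD at h
  subst hy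
  set m : ℝ := ‖s‖ with hm
  have e : (m : ℂ) ^ 2 * (-x) - ((m : ℂ) + conj s) * x
      = -(((m ^ 2 : ℝ) : ℂ) + ((m : ℂ) + conj s)) * x := by push_cast; ring
  rw [e, norm_mul, norm_neg] at h
  have h1 : ‖((m ^ 2 : ℝ) : ℂ) + ((m : ℂ) + conj s)‖ ≤ R :=
    le_of_mul_le_mul_right h (norm_pos_iff.mpr hx)
  have h2 := pow_le_pow_left₀ (norm_nonneg _) h1 2
  rw [← Complex.normSq_eq_norm_sq, Complex.normSq_add, normSq_kappa, Complex.normSq_ofReal, hR,
    Complex.re_ofReal_mul, ← hm] at h2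
  simp at h2
  nlinarith [pow_pos hs 3, pow_pos hs 2, mul_nonneg hs.le hre, mul_nonneg (pow_pos hs 2).le hre,
    pow_pos hs 4]

theorem ne_zero_of_flip (hs : 0 < ‖s‖) {x y : ℂ} (hx : x ≠ 0) (h : InD s R y x) : y ≠ 0 := by
  rintro rfl
  unfold InD at h
  simp only [mul_zero, sub_zero, norm_zero, norm_mul, norm_pow, Complex.norm_real] at h
  have : 0 < ‖‖s‖‖ ^ 2 * ‖x‖ := by
    have := norm_pos_iff.mpr hx
    have h3 : 0 < ‖‖s‖‖ := by rwa [norm_norm]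
    positivity
  linarith

theorem start_one (hs : 0 < ‖s‖) (hab : s.re * s.re + s.im * s.im = ‖s‖ ^ 2)
    (hv : ‖s‖ ^ 2 - ‖s‖ + 1 ≤ 2 * s.re) (hR0 : 0 ≤ R)
    (hR : R ^ 2 = ‖s‖ * (2 * ‖s‖ + 2 * s.re - ‖s‖ ^ 2)) :
    InD s R (1 + (1 + s)) (1 + s) := by
  unfold InD
  set m : ℝ := ‖s‖ with hm
  refine le_of_sq_le_sq ?_ (mul_nonneg hR0 (norm_nonneg _))
  rw [mul_pow, ← Complex.normSq_eq_norm_sq, ← Complex.normSq_eq_norm_sq, hR]
  have e1 : Complex.normSq ((m : ℂ) ^ 2 * (1 + s) - ((m : ℂ) + conj s) * (1 + (1 + s)))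
      = (m ^ 2 * (1 + s.re) - ((m + s.re) * (2 + s.re) + s.im * s.im)) ^ 2
        + (m ^ 2 * s.im - ((m + s.re) * s.im - s.im * (2 + s.re))) ^ 2 := by
    rw [Complex.normSq_apply, sq (m : ℂ)]
    simp
    ring
  have e2 : Complex.normSq (1 + (1 + s)) = (2 + s.re) ^ 2 + s.im ^ 2 := by
    rw [Complex.normSq_apply]
    simp
    ring
  rw [e1, e2]
  have h := real_start_one hs hv
  have h2 := mul_nonneg (sq_nonneg m) (sub_nonneg.mpr h)
  generalize s.re = a at *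
  generalize s.im = b at *
  clear hR e1 e2 h
  have key : (m ^ 2 * (1 + a) - ((m + a) * (2 + a) + b * b)) ^ 2
        + (m ^ 2 * b - ((m + a) * b - b * (2 + a))) ^ 2
        - m * (2 * m + 2 * a - m ^ 2) * ((2 + a) ^ 2 + b ^ 2)
      = m ^ 2 * (m ^ 4 - m ^ 3 + 3 * m ^ 2 - (2 + m) * (2 * a) - 2 * (2 * a) ^ 2) := by
    linear_combination (a ^ 2 - 2 * a * m ^ 2 + 4 * a + b ^ 2 + m ^ 4 - m ^ 3 + 2 * m ^ 2 + 4) * hab
  linarith

theorem start_two (hs : 0 < ‖s‖) (hab : s.re * s.re + s.im * s.im = ‖s‖ ^ 2)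
    (hv : ‖s‖ ^ 2 - ‖s‖ + 1 ≤ 2 * s.re) (hv2 : 2 * s.re ≤ 2 * ‖s‖) (hR0 : 0 ≤ R)
    (hR : R ^ 2 = ‖s‖ * (2 * ‖s‖ + 2 * s.re - ‖s‖ ^ 2)) :
    InD s R ((1 + s) * (1 + s)) (1 + (1 + s)) := by
  unfold InD
  set m : ℝ := ‖s‖ with hm
  refine le_of_sq_le_sq ?_ (mul_nonneg hR0 (norm_nonneg _))
  rw [mul_pow, ← Complex.normSq_eq_norm_sq, ← Complex.normSq_eq_norm_sq, hR]
  have e1 : Complex.normSq ((m : ℂ) ^ 2 * (1 + (1 + s)) - ((m : ℂ) + conj s) * ((1 + s) * (1 + s)))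
      = (m ^ 2 * (2 + s.re) - (m + s.re) * ((1 + s.re) ^ 2 - s.im ^ 2)
          - 2 * (1 + s.re) * s.im ^ 2) ^ 2
        + (m ^ 2 * s.im - (m + s.re) * (2 * (1 + s.re) * s.im)
          + s.im * ((1 + s.re) ^ 2 - s.im ^ 2)) ^ 2 := by
    rw [Complex.normSq_apply, sq (m : ℂ)]
    simp
    ring
  have e2 : Complex.normSq ((1 + s) * (1 + s)) = ((1 + s.re) ^ 2 + s.im ^ 2) ^ 2 := by
    rw [Complex.normSq_apply]
    simp
    ring
  rw [e1, e2]
  have h := real_start_two hs hv hv2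
  have h2 := mul_nonneg (sq_nonneg m) (sub_nonneg.mpr h)
  generalize s.re = a at *
  generalize s.im = b at *
  clear hR e1 e2 h
  have key : (m ^ 2 * (2 + a) - (m + a) * ((1 + a) ^ 2 - b ^ 2) - 2 * (1 + a) * b ^ 2) ^ 2
        + (m ^ 2 * b - (m + a) * (2 * (1 + a) * b) + b * ((1 + a) ^ 2 - b ^ 2)) ^ 2
        - m * (2 * m + 2 * a - m ^ 2) * ((1 + a) ^ 2 + b ^ 2) ^ 2
      = m ^ 2 * (m ^ 5 - m ^ 4 + 2 * m ^ 3 - 2 * m ^ 2 - 3 * m
          + (2 * a) * (m ^ 3 - 2 * m ^ 2 - 3 * m - 2) - (1 + m) * (2 * a) ^ 2) := by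
    linear_combination (a ^ 4 + 4 * a ^ 3 + 2 * a ^ 2 * b ^ 2 + a ^ 2 * m ^ 3 - 2 * a ^ 2 * m ^ 2
      + 6 * a ^ 2 + 4 * a * b ^ 2 + 2 * a * m ^ 3 - 8 * a * m ^ 2 + 4 * a + b ^ 4 + b ^ 2 * m ^ 3
      - 2 * b ^ 2 * m ^ 2 + 2 * b ^ 2 + m ^ 5 - m ^ 4 + 2 * m ^ 3 - 6 * m ^ 2 + 1) * hab
  linarith

/-- The Stern polynomials have no zero in the region `|t - 2|² ≤ |t - 1|`. -/
theorem nonvanish {t : ℂ} (ht : ‖t - 2‖ ^ 2 ≤ ‖t - 1‖) {b : ℕ → ℂ} (b1 : b 1 = 1)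
    (be : ∀ n, b (2 * n) = t * b n) (bo : ∀ n, b (2 * n + 1) = b n + b (n + 1)) :
    ∀ n, 1 ≤ n → b n ≠ 0 := by
  obtain ⟨s, rfl⟩ : ∃ s, t = 1 + s := ⟨t - 1, by ring⟩
  have hs0 : s ≠ 0 := by
    rintro rfl
    norm_num at ht
  have hm : 0 < ‖s‖ := norm_pos_iff.mpr hs0
  have e1 : ‖(1 + s) - 2‖ ^ 2 = ‖s‖ ^ 2 - 2 * s.re + 1 := by
    rw [← Complex.normSq_eq_norm_sq, ← Complex.normSq_eq_norm_sq, Complex.normSq_apply,
      Complex.normSq_apply]
    simp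
    ring
  have e2 : (1 + s) - 1 = s := by ring
  rw [e1, e2] at ht
  have hv : ‖s‖ ^ 2 - ‖s‖ + 1 ≤ 2 * s.re := by linarith
  have hv2 : 2 * s.re ≤ 2 * ‖s‖ := by
    have := Complex.re_le_norm s
    linarith
  have hy : 0 < ‖s‖ ^ 2 - ‖s‖ + 1 := by nlinarith [sq_nonneg (‖s‖ - 1)]
  have hre : 0 ≤ s.re := by linarith
  have hT : ‖1 + s‖ ^ 2 = 1 + 2 * s.re + ‖s‖ ^ 2 := by
    rw [← Complex.normSq_eq_norm_sq, ← Complex.normSq_eq_norm_sq, Complex.normSq_apply,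
      Complex.normSq_apply]
    simp
    ring
  have hRpos : 0 ≤ ‖s‖ * (2 * ‖s‖ + 2 * s.re - ‖s‖ ^ 2) := by
    apply mul_nonneg hm.le
    linarith
  obtain ⟨R, hR0, hR⟩ : ∃ R : ℝ, 0 ≤ R ∧ R ^ 2 = ‖s‖ * (2 * ‖s‖ + 2 * s.re - ‖s‖ ^ 2) :=
    ⟨√(‖s‖ * (2 * ‖s‖ + 2 * s.re - ‖s‖ ^ 2)), Real.sqrt_nonneg _, Real.sq_sqrt hRpos⟩
  have h1 := real_one hm hv hT (norm_nonneg _) hR0 hR
  have hN : ‖s - (((‖s‖ ^ 2 - ‖s‖ : ℝ)) : ℂ)‖ ^ 2
      = ‖s‖ ^ 2 - 2 * s.re * (‖s‖ ^ 2 - ‖s‖) + (‖s‖ ^ 2 - ‖s‖) ^ 2 := by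
    rw [← Complex.normSq_eq_norm_sq, Complex.normSq_sub, Complex.normSq_ofReal,
      Complex.conj_ofReal, Complex.re_mul_ofReal, Complex.normSq_eq_norm_sq]
    ring
  have h2 := real_two hm hv hT (norm_nonneg _) hR0 hR hN
  have t0 : (1 + s) ≠ 0 := by
    intro h
    have := congrArg Complex.re h
    simp at this
    linarith
  have t1 : (1 : ℂ) + (1 + s) ≠ 0 := by
    intro h
    have := congrArg Complex.re h
    simp at this
    linarith
  have b2 : b 2 = 1 + s := by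
    have := be 1
    rw [b1, mul_one] at this
    simpa using this
  have b3 : b 3 = 1 + (1 + s) := by
    have := bo 1
    norm_num at this
    rw [this, b1, b2]
  have b4 : b 4 = (1 + s) * (1 + s) := by
    have := be 2
    norm_num at this
    rw [this, b2]
  have hab : s.re * s.re + s.im * s.im = ‖s‖ ^ 2 := by
    rw [← Complex.normSq_eq_norm_sq, Complex.normSq_apply]
  have d23 : InD s R (b 3) (b 2) := by
    rw [b3, b2]
    exact start_one hm hab hv hR0 hR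
  have d34 : InD s R (b 4) (b 3) := by
    rw [b3, b4]
    exact start_two hm hab hv hv2 hR0 hR
  have main : ∀ n, 2 ≤ n → b n ≠ 0 ∧ (InD s R (b n) (b (n + 1)) ∨ InD s R (b (n + 1)) (b n)) := by
    intro n
    induction n using Nat.strong_induction_on with
    | _ n ih =>
      intro hn
      by_cases hn2 : n = 2
      · subst hn2
        exact ⟨by rw [b2]; exact t0, Or.inr d23⟩
      by_cases hn3 : n = 3
      · subst hn3
        exact ⟨by rw [b3]; exact t1, Or.inr d34⟩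
      obtain ⟨k, hk⟩ := Nat.even_or_odd' n
      have hk2 : 2 ≤ k := by omega
      obtain ⟨h0, hk'⟩ := ih k (by omega) hk2
      have hsum : b k + b (k + 1) ≠ 0 := by
        rcases hk' with h | h
        · exact sum_ne_zero hm hre hR h0 h
        · rw [add_comm]
          exact sum_ne_zero hm hre hR (ne_zero_of_flip hm h0 h) h
      rcases hk with rfl | rfl
      · rw [be, bo]
        refine ⟨mul_ne_zero t0 h0, Or.inl ?_⟩
        rcases hk' with h | h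
        · exact step_one h1 h
        · exact step_two hm hR0 hR h2 h
      · have e : 2 * k + 1 + 1 = 2 * (k + 1) := by ring
        rw [e, bo, be]
        refine ⟨hsum, Or.inr ?_⟩
        rw [add_comm (b k)]
        rcases hk' with h | h
        · exact step_two hm hR0 hR h2 h
        · exact step_one h1 h
  intro n hn
  by_cases hn1 : n = 1
  · subst hn1
    rw [b1]
    exact one_ne_zero
  · exact (main n (by omega)).1

end Disc

/-! ### Roots and values at integers -/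

theorem root_bound {n : ℕ} (hn : 1 ≤ n) {α : ℂ} (h : aeval α (stern n) = 0) :
    ‖α - 1‖ < ‖α - 2‖ ^ 2 := by
  by_contra hcon
  rw [not_lt] at hcon
  refine nonvanish (b := fun n => aeval α (stern n)) hcon ?_ ?_ ?_ n hn h
  · simp [stern_one]
  · intro n
    simp [stern_even]
  · intro n
    simp [stern_odd]

theorem stern_eval_two (n : ℕ) : (stern n).eval 2 = n := by
  induction n using Nat.strong_induction_on with
  | _ n ih =>
    obtain ⟨k, hk⟩ := Nat.even_or_odd' n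
    rcases hk with rfl | rfl
    · rcases Nat.eq_zero_or_pos k with rfl | hk
      · simp [stern_zero]
      · rw [stern_even, eval_mul, eval_X, ih k (by omega)]
        push_cast
        ring
    · rcases Nat.eq_zero_or_pos k with rfl | hk
      · simp [stern_one]
      · rw [stern_odd, eval_add, ih k (by omega), ih (k + 1) (by omega)]
        push_cast
        ring

theorem stern_eval_one {n : ℕ} (hn : 1 ≤ n) : 0 < (stern n).eval 1 := by
  induction n using Nat.strong_induction_on with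
  | _ n ih =>
    obtain ⟨k, hk⟩ := Nat.even_or_odd' n
    rcases hk with rfl | rfl
    · rw [stern_even, eval_mul, eval_X, one_mul]
      exact ih k (by omega) (by omega)
    · rcases Nat.eq_zero_or_pos k with rfl | hk
      · simp [stern_one]
      · rw [stern_odd, eval_add]
        exact add_pos (ih k (by omega) hk) (ih (k + 1) (by omega) (by omega))

theorem stern_eval_zero (n : ℕ) : (stern n).eval 0 = if n % 2 = 1 then 1 else 0 := by
  induction n using Nat.strong_induction_on with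
  | _ n ih =>
    obtain ⟨k, hk⟩ := Nat.even_or_odd' n
    rcases hk with rfl | rfl
    · rw [stern_even, eval_mul, eval_X, zero_mul, if_neg (by omega)]
    · rcases Nat.eq_zero_or_pos k with rfl | hk
      · simp [stern_one]
      · rw [stern_odd, eval_add, ih k (by omega), ih (k + 1) (by omega)]
        split_ifs <;> omega

theorem prod_bound (S : Multiset ℂ) (h : ∀ α ∈ S, ‖α - 1‖ < ‖α - 2‖ ^ 2) :
    0 < ‖(S.map (fun α => 2 - α)).prod‖ ∧
    ‖(S.map (fun α => 1 - α)).prod‖ ≤ ‖(S.map (fun α => 2 - α)).prod‖ ^ 2 ∧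
    (S ≠ 0 → ‖(S.map (fun α => 1 - α)).prod‖ < ‖(S.map (fun α => 2 - α)).prod‖ ^ 2) := by
  induction S using Multiset.induction_on with
  | empty => simp
  | cons a S ih =>
    obtain ⟨h1, h2, -⟩ := ih (fun α hα => h α (Multiset.mem_cons_of_mem hα))
    have ha := h a (Multiset.mem_cons_self a S)
    rw [norm_sub_rev a 1, norm_sub_rev a 2] at ha
    have hpos : 0 < ‖2 - a‖ := by
      rcases eq_or_lt_of_le (norm_nonneg (2 - a)) with h0 | h0
      · rw [← h0] at ha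
        have := norm_nonneg (1 - a)
        norm_num at ha
        linarith
      · exact h0
    have key : ‖((a ::ₘ S).map (fun α => 1 - α)).prod‖
        < ‖((a ::ₘ S).map (fun α => 2 - α)).prod‖ ^ 2 := by
      simp only [Multiset.map_cons, Multiset.prod_cons, norm_mul, mul_pow]
      refine lt_of_le_of_lt (mul_le_mul_of_nonneg_left h2 (norm_nonneg _)) ?_
      exact mul_lt_mul_of_pos_right ha (pow_pos h1 2)
    refine ⟨?_, key.le, fun _ => key⟩
    simp only [Multiset.map_cons, Multiset.prod_cons, norm_mul]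
    exact mul_pos hpos h1

theorem real_final {L P1 P2 A1 A2 : ℝ} (hL : 1 ≤ L) (hP2 : 0 ≤ P2)
    (h3 : P1 < P2 ^ 2) (n1 : A1 = L * P1) (n2 : A2 = L * P2) (hA1 : 1 ≤ A1) : 1 < A2 := by
  by_contra hcon
  rw [not_lt, n2] at hcon
  have h0 : 0 ≤ L * P2 := by positivity
  have h4 : (L * P2) ^ 2 ≤ 1 := by nlinarith
  have h5 : L ^ 2 * P1 < L ^ 2 * P2 ^ 2 := mul_lt_mul_of_pos_left h3 (by positivity)
  have h6 : 1 ≤ L * (L * P1) := by
    rw [n1] at hA1
    nlinarith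
  nlinarith

theorem one_le_norm_intCast {k : ℤ} (hk : k ≠ 0) : (1 : ℝ) ≤ ‖(k : ℂ)‖ := by
  rw [Complex.norm_intCast]
  exact_mod_cast Int.one_le_abs hk

theorem norm_eval (f : ℤ[X]) (k : ℤ) : ‖((f.eval k : ℤ) : ℂ)‖
    = ‖(f.leadingCoeff : ℂ)‖
      * ‖(((f.map (Int.castRingHom ℂ)).roots).map (fun α => (k : ℂ) - α)).prod‖ := by
  have hsp : (f.map (Int.castRingHom ℂ)).Splits := IsAlgClosed.splits _
  have h := hsp.eval_eq_prod_roots (k : ℂ)
  have hl : (f.map (Int.castRingHom ℂ)).leadingCoeff = (f.leadingCoeff : ℂ) := by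
    rw [leadingCoeff_map_of_injective (Int.castRingHom ℂ).injective_int]
    simp
  rw [eval_intCast_map, hl] at h
  rw [← norm_mul, ← h]
  simp

theorem roots_ne_zero {f : ℤ[X]} (hd : 0 < f.natDegree) :
    (f.map (Int.castRingHom ℂ)).roots ≠ 0 := by
  intro h0
  have hsp : (f.map (Int.castRingHom ℂ)).Splits := IsAlgClosed.splits _
  have h1 := hsp.natDegree_eq_card_roots
  rw [natDegree_map_eq_of_injective (Int.castRingHom ℂ).injective_int] at h1
  rw [h0, Multiset.card_zero] at h1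
  omega

theorem factor_bound {n : ℕ} (hn : 1 ≤ n) {f : ℤ[X]} (hf : f ∣ stern n) (hd : 0 < f.natDegree) :
    1 < |f.eval 2| := by
  have hf0 : f ≠ 0 := by
    rintro rfl
    simp at hd
  have hroot : ∀ α ∈ (f.map (Int.castRingHom ℂ)).roots, ‖α - 1‖ < ‖α - 2‖ ^ 2 := by
    intro α hα
    refine root_bound hn ?_
    have h0 : (f.map (Int.castRingHom ℂ)).eval α = 0 := (mem_roots'.1 hα).2
    obtain ⟨g, hg⟩ := hf
    rw [← eval_map_algebraMap, algebraMap_int_eq, hg, Polynomial.map_mul, eval_mul, h0, zero_mul]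
  have h3 := (prod_bound _ hroot).2.2 (roots_ne_zero hd)
  have n1 := norm_eval f 1
  have n2 := norm_eval f 2
  rw [Int.cast_one] at n1
  rw [Int.cast_ofNat] at n2
  have hA1 : f.eval 1 ≠ 0 := by
    intro h0
    obtain ⟨g, hg⟩ := hf
    have := stern_eval_one hn
    rw [hg, eval_mul, h0, zero_mul] at this
    exact lt_irrefl _ this
  have hlt := real_final (one_le_norm_intCast (leadingCoeff_ne_zero.mpr hf0)) (norm_nonneg _) h3
    n1 n2 (one_le_norm_intCast hA1)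
  rw [Complex.norm_intCast] at hlt
  exact_mod_cast hlt

theorem stern_isPrimitive {p : ℕ} (hp : p.Prime) : (stern p).IsPrimitive := by
  intro r hr
  obtain ⟨g, hg⟩ := hr
  rcases hp.eq_two_or_odd with h2 | h2
  · have h1 : (stern p).eval 1 = 1 := by
      rw [h2]
      have := stern_even 1
      rw [mul_one] at this
      rw [this, stern_one]
      simp
    rw [hg, eval_mul, eval_C] at h1
    exact IsUnit.of_mul_eq_one _ h1
  · have h1 := stern_eval_zero p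
    rw [if_pos h2, hg, eval_mul, eval_C] at h1
    exact IsUnit.of_mul_eq_one _ h1

theorem natDegree_pos_of_not_isUnit {p : ℕ} (hp : p.Prime) {f : ℤ[X]} (hf : f ∣ stern p)
    (hu : ¬ IsUnit f) : 0 < f.natDegree := by
  by_contra hcon
  have h0 : f.natDegree = 0 := by omega
  rw [eq_C_of_natDegree_eq_zero h0] at hf hu
  exact hu (isUnit_C.2 (stern_isPrimitive hp _ hf))

theorem irreducible_stern {p : ℕ} (hp : p.Prime) :
    Irreducible ((stern p).map (Int.castRingHom ℚ)) := by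
  refine (IsPrimitive.Int.irreducible_iff_irreducible_map_cast (stern_isPrimitive hp)).1 ?_
  have hev := stern_eval_two p
  constructor
  · intro hu
    have h1 := hu.map (evalRingHom 2)
    rw [coe_evalRingHom, hev, Int.isUnit_iff] at h1
    have := hp.two_le
    omega
  · intro a b hab
    by_contra hcon
    rw [not_or] at hcon
    have ha : a ∣ stern p := ⟨b, hab⟩
    have hb : b ∣ stern p := ⟨a, by rw [hab, mul_comm]⟩
    have h1 := factor_bound hp.one_le ha (natDegree_pos_of_not_isUnit hp ha hcon.1)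
    have h2 := factor_bound hp.one_le hb (natDegree_pos_of_not_isUnit hp hb hcon.2)
    rw [hab, eval_mul] at hev
    have h3 : (a.eval 2).natAbs * (b.eval 2).natAbs = p := by
      rw [← Int.natAbs_mul, hev]
      simp
    have h4 : (a.eval 2).natAbs ∣ p := ⟨_, h3.symm⟩
    have h7 : (1 : ℤ) < ((a.eval 2).natAbs : ℤ) := by rwa [Int.natCast_natAbs]
    have h8 : (1 : ℤ) < ((b.eval 2).natAbs : ℤ) := by rwa [Int.natCast_natAbs]
    rcases (Nat.dvd_prime hp).1 h4 with h5 | h5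
    · rw [h5] at h7
      norm_num at h7
    · rw [h5] at h3
      have h6 : (b.eval 2).natAbs = 1 := by
        have := hp.pos
        nlinarith
      rw [h6] at h8
      norm_num at h8

/-- The polynomials `stern n` satisfy the recursion of the Stern polynomials `B_n`, and for every
prime `p` the Stern polynomial `B_p` is irreducible in `ℚ[t]`. -/
theorem result :
    (stern 0 = 0 ∧ stern 1 = 1 ∧
      ∀ n : ℕ, 1 ≤ n → stern (2 * n) = X * stern n ∧ stern (2 * n + 1) = stern n + stern (n + 1)) ∧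
    ∀ p : ℕ, p.Prime → Irreducible ((stern p).map (Int.castRingHom ℚ)) :=
  ⟨⟨stern_zero, stern_one, fun n _ => ⟨stern_even n, stern_odd n⟩⟩,
    fun _ hp => irreducible_stern hp⟩

end Pool.Agent.Results.MP_201fbb_nt.SternIrreducible
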